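import Pool.Agent.Helper75.Slab.Goals

set_option autoImplicit false

/-!
# MP_beb0a8_an: packet SLAB-DISP
-/

open Set MeasureTheory

namespace Pool.Agent.Helper28.SlabDisp

open Pool.Agent.Helper75.Slab

theorem core_sub_O (j : ℤ × ℤ) : Core j ⊆ O := fun _ h => h.1

theorem O_sub_M : O ⊆ M := fun _ h => ⟨h.1.le, h.2.le⟩

theorem core_sub_M (j : ℤ × ℤ) : Core j ⊆ M := (core_sub_O j).trans O_sub_M

theorem continuous_dist2 (j : ℤ × ℤ) : Continuous (dist2 j) := by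
  unfold dist2; fun_prop

theorem isOpen_O : IsOpen O :=
  (isOpen_lt continuous_const (continuous_apply 2)).inter
    (isOpen_lt (continuous_apply 2) continuous_const)

theorem isOpen_core (j : ℤ × ℤ) : IsOpen (Core j) :=
  isOpen_O.inter (isOpen_lt (continuous_dist2 j) continuous_const)

theorem convex_core (j : ℤ × ℤ) : Convex ℝ (Core j) := by
  intro x hx y hy a b ha hb hab
  obtain ⟨hxO, hx3⟩ := hx
  obtain ⟨hyO, hy3⟩ := hy
  have h1 : a • x 2 + b • y 2 ∈ Ioo (0 : ℝ) 1 := (convex_Ioo (0 : ℝ) 1) hxO hyO ha hb hab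
  have h2 : a • dist2 j x + b • dist2 j y ∈ Iio (9 / 10 : ℝ) :=
    (convex_Iio (9 / 10 : ℝ)) hx3 hy3 ha hb hab
  refine ⟨⟨?_, ?_⟩, ?_⟩
  · simpa using h1.1
  · simpa using h1.2
  · have hb' : b = 1 - a := by linarith
    have h3 : dist2 j (a • x + b • y) = a • dist2 j x + b • dist2 j y -
        a * b * ((x 0 - y 0) ^ 2 + (x 1 - y 1) ^ 2) := by
      subst hb'
      unfold dist2
      simp only [Pi.add_apply, Pi.smul_apply, smul_eq_mul]
      ring
    have h4 : 0 ≤ a * b * ((x 0 - y 0) ^ 2 + (x 1 - y 1) ^ 2) := by positivity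
    rw [h3]
    have h5 : a • dist2 j x + b • dist2 j y < 9 / 10 := h2
    linarith

/-- The centre of a core. -/
noncomputable def ctr (j : ℤ × ℤ) : E := ![4 * (j.1 : ℝ), 4 * (j.2 : ℝ), 1 / 2]

theorem ctr_mem (j : ℤ × ℤ) : ctr j ∈ Core j := by
  refine ⟨⟨?_, ?_⟩, ?_⟩
  · simp [ctr]
  · simp [ctr]; norm_num
  · simp [ctr, dist2]

theorem disj (i i' : ℤ × ℤ) (x : E) (h : dist2 i x < 2) (h' : dist2 i' x < 2) : i = i' := by
  unfold dist2 at h h'
  have key : ∀ (a b : ℤ) (z : ℝ), (z - 4 * a) ^ 2 < 2 → (z - 4 * b) ^ 2 < 2 → a = b := by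
    intro a b z ha hb
    by_contra hne
    have h1 : (1 : ℤ) ≤ (a - b) ^ 2 := by
      have : a - b ≠ 0 := sub_ne_zero.2 hne
      have h2 : 0 < (a - b) ^ 2 := by positivity
      linarith
    have h2 : (1 : ℝ) ≤ ((a : ℝ) - b) ^ 2 := by exact_mod_cast h1
    nlinarith [sq_nonneg ((z - 4 * a) + (z - 4 * b))]
  have h0 : i.1 = i'.1 := key i.1 i'.1 (x 0) (by nlinarith [sq_nonneg (x 1 - 4 * (i.2 : ℝ))])
    (by nlinarith [sq_nonneg (x 1 - 4 * (i'.2 : ℝ))])
  have h1 : i.2 = i'.2 := key i.2 i'.2 (x 1) (by nlinarith [sq_nonneg (x 0 - 4 * (i.1 : ℝ))])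
    (by nlinarith [sq_nonneg (x 0 - 4 * (i'.1 : ℝ))])
  exact Prod.ext h0 h1

/-- One target per core. -/
theorem target (φ : E → E) (hc : ContinuousOn φ M)
    (hlab : ∀ j ∈ sites, ∀ X ∈ Core j, ∃ i ∈ sites, dist2 i (φ X) ≤ 8 / 5) (j : ℤ × ℤ)
    (hj : j ∈ sites) : ∃ i ∈ sites, ∀ X ∈ Core j, dist2 i (φ X) ≤ 8 / 5 := by
  obtain ⟨i, hi, h0⟩ := hlab j hj (ctr j) (ctr_mem j)
  refine ⟨i, hi, ?_⟩
  have hpre : IsPreconnected (φ '' Core j) :=
    (convex_core j).isPreconnected.image φ (hc.mono (core_sub_M j))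
  have hu : IsOpen {x : E | dist2 i x < 2} := isOpen_lt (continuous_dist2 i) continuous_const
  have hv : IsOpen (⋃ i' : {i' : ℤ × ℤ // i' ≠ i}, {x : E | dist2 i'.1 x < 2}) :=
    isOpen_iUnion fun i' => isOpen_lt (continuous_dist2 i'.1) continuous_const
  have huv : Disjoint {x : E | dist2 i x < 2}
      (⋃ i' : {i' : ℤ × ℤ // i' ≠ i}, {x : E | dist2 i'.1 x < 2}) := by
    rw [Set.disjoint_left]
    intro x hx hx'
    obtain ⟨i', hi'⟩ := Set.mem_iUnion.1 hx'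
    exact i'.2 (disj i'.1 i x hi' hx)
  have hsub : φ '' Core j ⊆ {x : E | dist2 i x < 2} ∪
      (⋃ i' : {i' : ℤ × ℤ // i' ≠ i}, {x : E | dist2 i'.1 x < 2}) := by
    rintro _ ⟨X, hX, rfl⟩
    obtain ⟨i', -, h1⟩ := hlab j hj X hX
    have h2 : dist2 i' (φ X) < 2 := by linarith
    by_cases h : i' = i
    · left; subst h; exact h2
    · right; exact Set.mem_iUnion.2 ⟨⟨i', h⟩, h2⟩
  have hne : (φ '' Core j ∩ {x : E | dist2 i x < 2}).Nonempty :=
    ⟨φ (ctr j), ⟨ctr j, ctr_mem j, rfl⟩, by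
      show dist2 i (φ (ctr j)) < 2
      linarith⟩
  have hall := hpre.subset_left_of_subset_union hu hv huv hsub hne
  intro X hX
  obtain ⟨i', -, h1⟩ := hlab j hj X hX
  have h2 : dist2 i (φ X) < 2 := hall ⟨X, hX, rfl⟩
  have h3 : i' = i := disj i' i (φ X) (by linarith) h2
  rw [← h3]; exact h1

/-! ### Volumes -/

/-- The translation vector of a site. -/
noncomputable def sh (j : ℤ × ℤ) : E := ![-(4 * (j.1 : ℝ)), -(4 * (j.2 : ℝ)), 0]

theorem dist2_sh (j : ℤ × ℤ) (x : E) : dist2 (0, 0) (x + sh j) = dist2 j x := by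
  unfold dist2
  have h0 : (x + sh j) 0 = x 0 - 4 * (j.1 : ℝ) := by
    rw [Pi.add_apply, sub_eq_add_neg]; rfl
  have h1 : (x + sh j) 1 = x 1 - 4 * (j.2 : ℝ) := by
    rw [Pi.add_apply, sub_eq_add_neg]; rfl
  rw [h0, h1]
  simp only [Int.cast_zero, mul_zero, sub_zero]

theorem O_sh (j : ℤ × ℤ) (x : E) : x + sh j ∈ O ↔ x ∈ O := by
  have h2 : (x + sh j) 2 = x 2 := by
    rw [Pi.add_apply]
    have : sh j 2 = 0 := rfl
    rw [this, add_zero]
  show (0 < (x + sh j) 2 ∧ (x + sh j) 2 < 1) ↔ _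
  rw [h2]; rfl

theorem core_eq (j : ℤ × ℤ) (r : ℝ) : {x : E | x ∈ O ∧ dist2 j x ≤ r} =
    (fun x => x + sh j) ⁻¹' {x : E | x ∈ O ∧ dist2 (0, 0) x ≤ r} := by
  ext x
  show (x ∈ O ∧ dist2 j x ≤ r) ↔ (x + sh j ∈ O ∧ dist2 (0, 0) (x + sh j) ≤ r)
  rw [dist2_sh, O_sh]

theorem core_eq' (j : ℤ × ℤ) : Core j = (fun x => x + sh j) ⁻¹' Core (0, 0) := by
  ext x
  show (x ∈ O ∧ dist2 j x < 9 / 10) ↔ (x + sh j ∈ O ∧ dist2 (0, 0) (x + sh j) < 9 / 10)
  rw [dist2_sh, O_sh]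

theorem vol_core (j : ℤ × ℤ) : volume (Core j) = volume (Core (0, 0)) := by
  rw [core_eq' j, measure_preimage_add_right]

theorem vol_core_pos : 0 < volume (Core (0, 0)) :=
  (isOpen_core (0, 0)).measure_pos volume ⟨_, ctr_mem (0, 0)⟩

theorem vol_core_lt_top : volume (Core (0, 0)) < ⊤ := by
  have hb : Bornology.IsBounded (Core (0, 0)) := by
    refine (Metric.isBounded_closedBall (x := (0 : E)) (r := 1)).subset fun x hx => ?_
    obtain ⟨⟨h1, h2⟩, h3⟩ := hx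
    simp only [dist2, Int.cast_zero, mul_zero, sub_zero] at h3
    rw [Metric.mem_closedBall, dist_zero_right, pi_norm_le_iff_of_nonneg zero_le_one]
    intro i
    rw [Real.norm_eq_abs]
    fin_cases i
    · refine abs_le_of_sq_le_sq ?_ zero_le_one
      show (x 0) ^ 2 ≤ 1 ^ 2
      nlinarith [sq_nonneg (x 1)]
    · refine abs_le_of_sq_le_sq ?_ zero_le_one
      show (x 1) ^ 2 ≤ 1 ^ 2
      nlinarith [sq_nonneg (x 0)]
    · exact abs_le.2 ⟨by show -1 ≤ x 2; linarith, h2.le⟩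
  exact hb.measure_lt_top

theorem vol_big (i : ℤ × ℤ) : volume {x : E | x ∈ O ∧ dist2 i x ≤ 8 / 5} ≤
    ENNReal.ofReal (19 / 10) * volume (Core (0, 0)) := by
  rw [core_eq i, measure_preimage_add_right]
  set l : ℝ := Real.sqrt (19 / 10) with hl
  have hl2 : l ^ 2 = 19 / 10 := Real.sq_sqrt (by norm_num)
  have hl0 : 0 < l := Real.sqrt_pos.2 (by norm_num)
  have hdet : LinearMap.det (Matrix.toLin' (Matrix.diagonal ![l, l, 1])) = 19 / 10 := by
    rw [LinearMap.det_toLin', Matrix.det_diagonal, Fin.prod_univ_three]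
    simp
    nlinarith
  have h1 := Measure.addHaar_image_linearMap (volume : Measure E)
    (Matrix.toLin' (Matrix.diagonal ![l, l, 1])) (Core (0, 0))
  rw [hdet, abs_of_pos (by norm_num : (0 : ℝ) < 19 / 10)] at h1
  rw [← h1]
  refine measure_mono fun x hx => ?_
  obtain ⟨⟨h2, h3⟩, h4⟩ := hx
  simp only [dist2, Int.cast_zero, mul_zero, sub_zero] at h4
  refine ⟨![x 0 / l, x 1 / l, x 2], ⟨⟨by simpa using h2, by simpa using h3⟩, ?_⟩, ?_⟩
  · show dist2 (0, 0) _ < 9 / 10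
    simp only [dist2, Int.cast_zero, mul_zero, sub_zero]
    simp only [Matrix.cons_val_zero, Matrix.cons_val_one]
    rw [div_pow, div_pow, hl2, ← add_div, div_lt_iff₀ (by norm_num)]
    linarith
  · rw [Matrix.toLin'_apply]
    ext k
    rw [Matrix.mulVec_diagonal]
    fin_cases k
    · simp [mul_div_cancel₀, hl0.ne']
    · simp [mul_div_cancel₀, hl0.ne']
    · simp

/-- Different cores have different targets. -/
theorem target_inj (φ : E → E) (hinj : InjOn φ M) (hO : ∀ X ∈ O, φ X ∈ O)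
    (hvol : ∀ S ⊆ O, MeasurableSet S → volume (φ '' S) = volume S) (j k i : ℤ × ℤ)
    (hj : ∀ X ∈ Core j, dist2 i (φ X) ≤ 8 / 5) (hk : ∀ X ∈ Core k, dist2 i (φ X) ≤ 8 / 5) :
    j = k := by
  by_contra hne
  have hd : Disjoint (Core j) (Core k) := by
    rw [Set.disjoint_left]
    intro x hx hx'
    exact hne (disj j k x (by linarith [hx.2]) (by linarith [hx'.2]))
  have h1 : volume (Core j ∪ Core k) = volume (Core (0, 0)) + volume (Core (0, 0)) := by
    rw [measure_union hd (isOpen_core k).measurableSet, vol_core j, vol_core k]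
  have h2 := hvol (Core j ∪ Core k) (union_subset (core_sub_O j) (core_sub_O k))
    ((isOpen_core j).measurableSet.union (isOpen_core k).measurableSet)
  have h3 : φ '' (Core j ∪ Core k) ⊆ {x : E | x ∈ O ∧ dist2 i x ≤ 8 / 5} := by
    rintro _ ⟨X, hX, rfl⟩
    rcases hX with hX | hX
    · exact ⟨hO X hX.1, hj X hX⟩
    · exact ⟨hO X hX.1, hk X hX⟩
  have h4 := (measure_mono h3 : volume _ ≤ volume _).trans (vol_big i)
  rw [h2, h1] at h4
  have hp := vol_core_pos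
  have ht := vol_core_lt_top.ne
  have h5 := ENNReal.toReal_mono (ENNReal.mul_ne_top ENNReal.ofReal_ne_top ht) h4
  rw [ENNReal.toReal_add ht ht, ENNReal.toReal_mul, ENNReal.toReal_ofReal (by norm_num)] at h5
  have h6 : 0 < (volume (Core (0, 0))).toReal := ENNReal.toReal_pos hp.ne' ht
  linarith

/-! ### Arithmetic of the boxes -/

theorem pow_gap (a b : ℕ) (h : a < b) : (3 : ℝ) * b ≤ 4 ^ b - 4 ^ a := by
  obtain ⟨c, rfl⟩ : ∃ c, b = c + 1 := ⟨b - 1, by omega⟩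
  have h1 : (4 : ℝ) ^ a ≤ 4 ^ c := pow_le_pow_right₀ (by norm_num) (by omega)
  have h2 : c + 1 ≤ 4 ^ c := Nat.lt_pow_self (by norm_num)
  have h3 : ((c : ℝ) + 1) ≤ 4 ^ c := by exact_mod_cast h2
  push_cast
  rw [pow_succ]
  linarith

theorem mem_Jn (n : ℕ) (j : ℤ × ℤ) : j ∈ Jn n ↔ |j.1 - 4 ^ n| ≤ n ∧ |j.2| ≤ n := by
  unfold Jn
  rw [Finset.mem_product, Finset.mem_Icc, Finset.mem_Icc, abs_le, abs_le]
  constructor
  · rintro ⟨⟨h1, h2⟩, h3, h4⟩
    exact ⟨⟨by linarith, by linarith⟩, h3, h4⟩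
  · rintro ⟨⟨h1, h2⟩, h3, h4⟩
    exact ⟨⟨by linarith, by linarith⟩, h3, h4⟩

theorem Jn_sub_sites (n : ℕ) (j : ℤ × ℤ) (h : j ∈ Jn n) : j ∈ sites :=
  ⟨n, (mem_Jn n j).1 h⟩

theorem stay (D : ℝ) (n : ℕ) (hn : (D + 2) / 4 < n) (j i : ℤ × ℤ) (hj : j ∈ Jn n)
    (hi : i ∈ sites) (hd : |4 * (i.1 : ℝ) - 4 * j.1| ≤ D + 3 / 2) : i ∈ Jn n := by
  obtain ⟨m, hm⟩ := hi
  rw [mem_Jn] at hj ⊢
  by_cases hmn : m = n
  · subst hmn; exact hm
  exfalso
  have h1 : |(i.1 : ℝ) - 4 ^ m| ≤ m := by exact_mod_cast hm.1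
  have h2 : |(j.1 : ℝ) - 4 ^ n| ≤ n := by exact_mod_cast hj.1
  rw [abs_le] at h1 h2 hd
  rcases lt_or_gt_of_ne hmn with h | h
  · have h3 := pow_gap m n h
    have h4 : (m : ℝ) ≤ n := by exact_mod_cast h.le
    linarith [h1.1, h1.2, h2.1, h2.2, hd.1, hd.2]
  · have h3 := pow_gap n m h
    have h4 : (n : ℝ) ≤ m := by exact_mod_cast h.le
    linarith [h1.1, h1.2, h2.1, h2.2, hd.1, hd.2]

theorem abs_of_dist2 (i : ℤ × ℤ) (x : E) (h : dist2 i x ≤ 8 / 5) :
    |x 0 - 4 * (i.1 : ℝ)| ≤ 3 / 2 := by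
  unfold dist2 at h
  refine abs_le_of_sq_le_sq ?_ (by norm_num)
  nlinarith [sq_nonneg (x 1 - 4 * (i.2 : ℝ))]

theorem abs_of_core (j : ℤ × ℤ) (x : E) (h : x ∈ Core j) : |x 0 - 4 * (j.1 : ℝ)| ≤ 1 := by
  have h2 := h.2
  unfold dist2 at h2
  refine abs_le_of_sq_le_sq ?_ (by norm_num)
  nlinarith [sq_nonneg (x 1 - 4 * (j.2 : ℝ))]

theorem disp : G_DISP := by
  intro φ D hc hinj hO hD hvol hlab
  have h1 : ∀ j, ∃ i, j ∈ sites → (i ∈ sites ∧ ∀ X ∈ Core j, dist2 i (φ X) ≤ 8 / 5) := by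
    intro j
    by_cases hj : j ∈ sites
    · obtain ⟨i, hi, h⟩ := target φ hc hlab j hj
      exact ⟨i, fun _ => ⟨hi, h⟩⟩
    · exact ⟨j, fun h => absurd h hj⟩
  choose π hπ using h1
  obtain ⟨n₀, hn₀⟩ := exists_nat_gt ((D + 2) / 4)
  refine ⟨n₀, fun n hn => ?_⟩
  have hn' : (D + 2) / 4 < n := lt_of_lt_of_le hn₀ (by exact_mod_cast hn)
  -- the labels stay in the box
  have hstay : ∀ j ∈ Jn n, π j ∈ Jn n := by
    intro j hj
    have hjs := Jn_sub_sites n j hj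
    refine stay D n hn' j (π j) hj (hπ j hjs).1 ?_
    have h2 := abs_of_dist2 _ _ ((hπ j hjs).2 (ctr j) (ctr_mem j))
    have h3 := (norm_le_pi_norm (φ (ctr j) - ctr j) 0).trans (hD _ (core_sub_M j (ctr_mem j)))
    rw [Real.norm_eq_abs, Pi.sub_apply] at h3
    have h4 : ctr j 0 = 4 * (j.1 : ℝ) := by simp [ctr]
    rw [h4] at h3
    rw [abs_le] at h2 h3 ⊢
    constructor <;> linarith [h2.1, h2.2, h3.1, h3.2]
  have hinjπ : Set.InjOn π (Jn n) := by
    intro j hj k hk hjk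
    have hjs := Jn_sub_sites n j hj
    have hks := Jn_sub_sites n k hk
    refine target_inj φ hinj hO hvol j k (π j) (hπ j hjs).2 ?_
    rw [hjk]; exact (hπ k hks).2
  have himg : (Jn n).image π = Jn n := by
    apply Finset.eq_of_subset_of_card_le
    · intro i hi
      obtain ⟨j, hj, rfl⟩ := Finset.mem_image.1 hi
      exact hstay j hj
    · rw [Finset.card_image_of_injOn hinjπ]
  have hsum : ∑ j ∈ Jn n, ((π j).1 : ℝ) = ∑ j ∈ Jn n, (j.1 : ℝ) := by
    conv_rhs => rw [← himg]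
    rw [Finset.sum_image hinjπ]
  have hqv : ∀ j, volume.real (Core j) = qv := by
    intro j
    rw [Measure.real, vol_core j]; rfl
  have hint : ∀ j ∈ Jn n, ∫ X in Core j, (φ X 0 - X 0) ≤
      (4 * (((π j).1 : ℝ) - j.1) + 3) * qv := by
    intro j hj
    have hjs := Jn_sub_sites n j hj
    have hfin : volume (Core j) ≠ ⊤ := by rw [vol_core]; exact vol_core_lt_top.ne
    have hcont : ContinuousOn (fun X : E => φ X 0 - X 0) (Core j) := by
      have h2 : ContinuousOn (fun X : E => φ X 0) (Core j) :=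
        (continuous_apply 0).comp_continuousOn (hc.mono (core_sub_M j))
      exact h2.sub (continuous_apply 0).continuousOn
    have hI : IntegrableOn (fun X : E => φ X 0 - X 0) (Core j) := by
      have : IsFiniteMeasure (volume.restrict (Core j)) :=
        ⟨by rw [Measure.restrict_apply_univ]; exact lt_top_iff_ne_top.2 hfin⟩
      refine Integrable.of_bound
        (hcont.aestronglyMeasurable (isOpen_core j).measurableSet) D ?_
      refine (ae_restrict_iff' (isOpen_core j).measurableSet).2 (Filter.Eventually.of_forall ?_)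
      intro X hX
      exact (norm_le_pi_norm (φ X - X) 0).trans (hD _ (core_sub_M j hX))
    have hI2 : IntegrableOn (fun _ : E => 4 * (((π j).1 : ℝ) - j.1) + 3) (Core j) :=
      integrableOn_const hfin
    have h3 := setIntegral_mono_on hI hI2 (isOpen_core j).measurableSet (fun X hX => by
      have h4 := abs_of_dist2 _ _ ((hπ j hjs).2 X hX)
      have h5 := abs_of_core j X hX
      rw [abs_le] at h4 h5
      linarith [h4.1, h4.2, h5.1, h5.2])
    rw [setIntegral_const, hqv, smul_eq_mul, mul_comm qv] at h3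
    exact h3
  refine (Finset.sum_le_sum hint).trans ?_
  rw [← Finset.sum_mul]
  have h6 : ∑ j ∈ Jn n, (4 * (((π j).1 : ℝ) - j.1) + 3) = 3 * (Jn n).card := by
    rw [Finset.sum_add_distrib, ← Finset.mul_sum, Finset.sum_sub_distrib, hsum, sub_self, mul_zero,
      zero_add, Finset.sum_const, nsmul_eq_mul, mul_comm]
  rw [h6]

end Pool.Agent.Helper28.SlabDisp
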